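import Pool.Graph.R_pool_sql_team_seeded_3997aac3.Q187.HT.Conv

/-!
# Non-degeneracy of the height pairing passes to dominated varieties
-/

open CategoryTheory AlgebraicGeometry

universe u v w

namespace Pool.Agent.H423.BH

open Pool.Agent.Q187
open Pool.Agent.H914 Pool.Agent.H914.VarClass Pool.Agent.H914.VarClass.Obj Pool.Agent.W492.BB
  Pool.Agent.W550.Corr Pool.Agent.TH133 Pool.Agent.Y148.BB Pool.Agent.Q187.AJ Pool.Agent.Q187.RK
  Pool.Agent.Q187.HT

open Matrix Module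

section lin

variable {V W V₁ W₁ : Type*} [AddCommGroup V] [Module ℚ V] [AddCommGroup W] [Module ℚ W]
  [AddCommGroup V₁] [Module ℚ V₁] [AddCommGroup W₁] [Module ℚ W₁]

/-- The pairing `B` has no left kernel over `ℝ`. -/
def NoLeft (B : V →ₗ[ℚ] W →ₗ[ℚ] ℝ) : Prop :=
  ∀ (r s : ℕ) (b : Basis (Fin r) ℚ V) (c : Basis (Fin s) ℚ W) (x : Fin r → ℝ),
    x ᵥ* mat B b c = 0 → x = 0

/-- If `F : V → V₁` is injective and has an adjoint `G : W₁ → W`, then the absence of a left kernel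
passes from `V₁ × W₁` to `V × W`. -/
lemma noLeft_of_adj {B : V →ₗ[ℚ] W →ₗ[ℚ] ℝ} {B₁ : V₁ →ₗ[ℚ] W₁ →ₗ[ℚ] ℝ} (F : V →ₗ[ℚ] V₁)
    (G : W₁ → W) (hF : Function.Injective F) (hFG : ∀ v w, B₁ (F v) w = B v (G w)) {r : ℕ}
    {u : ℝˣ ⧸ ratUnits} (h : IsDet B₁ r u) : NoLeft B := by
  intro r' s b c x hx
  obtain ⟨e, e', y, hy, -⟩ := h
  have hdet : (mat B₁ e e').det ≠ 0 := by
    change (Matrix.of fun i k => B₁ (e i) (e' k)).det ≠ 0
    rw [← hy]
    exact y.ne_zero
  have h1 : ∀ w : W, ∑ i, x i * B (b i) w = 0 := by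
    intro w
    have h2 : w = ∑ l, c.repr w l • c l := (c.sum_repr w).symm
    have h3 : ∀ l, ∑ i, x i * B (b i) (c l) = 0 := fun l => congrFun hx l
    rw [h2]
    simp only [map_sum, map_smul, Finset.mul_sum]
    rw [Finset.sum_comm]
    refine Finset.sum_eq_zero fun l _ => ?_
    have h4 : ∀ i, x i * c.repr w l • B (b i) (c l) = c.repr w l • (x i * B (b i) (c l)) := by
      intro i
      rw [mul_smul_comm]
    simp only [h4]
    rw [← Finset.smul_sum, h3, smul_zero]
  have h5 : x ᵥ* mat B₁ (fun i => F (b i)) e' = 0 := by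
    funext k
    change ∑ i, x i * B₁ (F (b i)) (e' k) = 0
    simp only [hFG]
    exact h1 _
  rw [mat_change B₁ e e', Basis.toMatrix_self, toR_one, Matrix.mul_one,
    ← Matrix.vecMul_vecMul] at h5
  have h6 : x ᵥ* (toR (e.toMatrix fun i => F (b i)))ᵀ = 0 := by
    by_contra hne
    exact hdet (Matrix.exists_vecMul_eq_zero_iff.1 ⟨_, hne, h5⟩)
  obtain ⟨F', hF'⟩ := LinearMap.exists_leftInverse_of_injective F (LinearMap.ker_eq_bot.2 hF)
  have h7 : LinearMap.toMatrix e b F' * e.toMatrix (fun i => F (b i)) = 1 := by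
    have h8 : e.toMatrix (fun i => F (b i)) = LinearMap.toMatrix b e F := by
      ext i j
      rw [LinearMap.toMatrix_apply, Basis.toMatrix_apply]
    rw [h8, ← LinearMap.toMatrix_comp b e b, hF', LinearMap.toMatrix_id]
  have h9 : (x ᵥ* (toR (e.toMatrix fun i => F (b i)))ᵀ) ᵥ*
      (toR (LinearMap.toMatrix e b F'))ᵀ = 0 := by
    rw [h6, Matrix.zero_vecMul]
  rwa [Matrix.vecMul_vecMul, ← Matrix.transpose_mul, ← toR_mul, h7, toR_one,
    Matrix.transpose_one, Matrix.vecMul_one] at h9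

lemma finrank_le_of_noLeft {B : V →ₗ[ℚ] W →ₗ[ℚ] ℝ} [Module.Finite ℚ V] [Module.Finite ℚ W]
    (h : NoLeft B) : finrank ℚ V ≤ finrank ℚ W := by
  have b := Module.finBasis ℚ V
  have c := Module.finBasis ℚ W
  have h1 := h _ _ b c
  have h3 := LinearMap.finrank_le_finrank_of_injective
    (f := (mat B b c).vecMulLinear) (by
      rw [← LinearMap.ker_eq_bot, LinearMap.ker_eq_bot']
      exact fun x hx => h1 x hx)
  simpa using h3

lemma exists_isDet_of_noLeft {B : V →ₗ[ℚ] W →ₗ[ℚ] ℝ} [Module.Finite ℚ V] [Module.Finite ℚ W]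
    (h : NoLeft B) (e : finrank ℚ V = finrank ℚ W) : ∃ r u, IsDet B r u := by
  have b := Module.finBasis ℚ V
  have c := (Module.finBasis ℚ W).reindex (finCongr e.symm)
  have h4 := h _ _ b c
  have h5 : (mat B b c).det ≠ 0 := by
    intro h6
    obtain ⟨x, hx, hx'⟩ := Matrix.exists_vecMul_eq_zero_iff.2 h6
    exact hx (h4 x hx')
  exact ⟨_, _, isDet_of_basis b c (x := Units.mk0 _ h5) rfl⟩

end lin

set_option linter.unusedSectionVars false
set_option linter.unusedVariables false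

variable {k : Type u} [Field k] {𝒱 : VarClass k}

variable {C : TheoryData.{u, v, 0} 𝒱 ℚ} [hC : IsChowProj C] {K : Type w} [Field K]
  {H : WeilTheoryData.{u, v, w} C K} [hH : IsWeilProj H] {X Y Z W B P M L : 𝒱.Obj}
  {h : ∀ X : 𝒱.Obj, C.A X →ₗ[ℚ] C.A X →ₗ[ℚ] ℝ}

include hC hH

/-- Push-forward of homologically trivial cycles along a correspondence. -/
noncomputable def actHom {c : ℤ} {f : C.A (X.prod Z)} (hf : f ∈ C.gr (X.prod Z) (X.dim + c))
    {j j' : ℤ} (hj : j + c = j') {p : C.A (X.prod X)} {q : C.A (Z.prod Z)} (hq : q = dg C Z) :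
    homTriv C H p j →ₗ[ℚ] homTriv C H q j' where
  toFun z := ⟨C.act f z.1, by
    refine ⟨?_, ?_, ?_⟩
    · rw [← hj]
      exact act_mem' C hf z.2.1
    · have h2 : H.cl z.1 = 0 := z.2.2.1
      change H.cl (C.act f z.1) = 0
      rw [cl_act H, h2, TheoryData.act_map_zero]
    · rw [hq]
      exact act_dg C _⟩
  map_add' a b := Subtype.ext (act_map_add C f _ _)
  map_smul' r a := Subtype.ext (act_map_smul C f _ _)

section dom

variable {f : C.A (X.prod Z)} {g : C.A (Z.prod X)}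

/-- The pairing on `X` has no left kernel if the pairing on `Z` is non-degenerate. -/
lemma noLeft_dom (hh : IsHeight C H h) (hf : f ∈ C.gr (X.prod Z) (X.dim + 0))
    (hfg : ∀ x : C.A X, C.act g (C.act f x) = x) {j : ℤ} (hZ : NonDeg C H h (dg C Z) j) :
    NoLeft (pairing C H h (dg C X) j) := by
  obtain ⟨r, u, hd⟩ := hZ
  have hf' : tp C f ∈ C.gr (Z.prod X) (Z.dim + ((X.dim : ℤ) - Z.dim)) :=
    gr_congr (by ring) (tp_mem C hf)
  let F : homTriv C H (dg C X) j →ₗ[ℚ] homTriv C H (dg C Z) j :=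
    actHom (H := H) hf (add_zero j) rfl
  let G : homTriv C H (tp C (dg C Z)) (Z.dim + 1 - j) →ₗ[ℚ]
      homTriv C H (tp C (dg C X)) (X.dim + 1 - j) :=
    actHom (H := H) hf' (by ring) (tp_dg C X)
  refine noLeft_of_adj F G ?_ ?_ hd
  · intro a b hab
    have h1 : C.act f a.1 = C.act f b.1 := congrArg Subtype.val hab
    exact Subtype.ext (by rw [← hfg a.1, ← hfg b.1, h1])
  · rintro ⟨v, hv, hv0, hvv⟩ ⟨w, hw, hw0, hww⟩
    change h Z (C.act f v) w = h X v (C.act (tp C f) w)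
    exact hh X Z 0 j f v w hf hv hv0 (by rw [add_zero]; exact hw) hw0

lemma finite_dom (hf : f ∈ C.gr (X.prod Z) (X.dim + 0))
    (hfg : ∀ x : C.A X, C.act g (C.act f x) = x) {j : ℤ} (hZ : NonDeg C H h (dg C Z) j) :
    Module.Finite ℚ (homTriv C H (dg C X) j) := by
  obtain ⟨r, u, b, -⟩ := hZ
  have : Module.Finite ℚ (homTriv C H (dg C Z) j) := Module.Finite.of_basis b
  refine Module.Finite.of_injective (actHom (H := H) hf (add_zero j) rfl :
    homTriv C H (dg C X) j →ₗ[ℚ] homTriv C H (dg C Z) j) ?_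
  intro a b hab
  have h1 : C.act f a.1 = C.act f b.1 := congrArg Subtype.val hab
  exact Subtype.ext (by rw [← hfg a.1, ← hfg b.1, h1])

/-- **Non-degeneracy passes to dominated varieties.** -/
theorem nonDeg_dom (hh : IsHeight C H h) (hf : f ∈ C.gr (X.prod Z) (X.dim + 0))
    (hfg : ∀ x : C.A X, C.act g (C.act f x) = x) {j : ℤ} (hZ : NonDeg C H h (dg C Z) j)
    (hZ' : NonDeg C H h (dg C Z) (X.dim + 1 - j)) : NonDeg C H h (dg C X) j := by
  have f1 := finite_dom (H := H) hf hfg hZ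
  have f2 := finite_dom (H := H) hf hfg hZ'
  have n1 := noLeft_dom (H := H) hh hf hfg hZ
  have n2 := noLeft_dom (H := H) hh hf hfg hZ'
  have e1 : homTriv C H (tp C (dg C X)) (X.dim + 1 - j) =
      homTriv C H (dg C X) (X.dim + 1 - j) := by rw [tp_dg]
  have e2 : homTriv C H (tp C (dg C X)) (X.dim + 1 - (X.dim + 1 - j)) =
      homTriv C H (dg C X) j := by
    rw [tp_dg]
    congr 1
    ring
  have f3 : Module.Finite ℚ (homTriv C H (tp C (dg C X)) (X.dim + 1 - j)) := by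
    rw [e1]; exact f2
  have f4 : Module.Finite ℚ (homTriv C H (tp C (dg C X)) (X.dim + 1 - (X.dim + 1 - j))) := by
    rw [e2]; exact f1
  have g1 := finrank_le_of_noLeft n1
  have g2 := finrank_le_of_noLeft n2
  rw [e2] at g2
  rw [e1] at g1
  refine exists_isDet_of_noLeft n1 ?_
  rw [e1]
  exact le_antisymm g1 g2

/-- Non-degeneracy for the submotives. -/
theorem nonDeg_projector (hh : IsHeight C H h) {j : ℤ} (hX : NonDeg C H h (dg C X) j)
    {p : C.A (X.prod X)} (hp : Pr p) : NonDeg C H h p j := by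
  have h5 : Pr (dg C X - p) := by
    refine ⟨Submodule.sub_mem _ (dg_mem C X) hp.1, ?_⟩
    rw [comp_sub, comp_dg, sub_comp, dg_comp, hp.2, sub_self, sub_zero]
  have h6 : C.comp p (dg C X - p) = 0 := by rw [comp_sub, comp_dg, hp.2, sub_self]
  have h7 : C.comp (dg C X - p) p = 0 := by rw [sub_comp, dg_comp, hp.2, sub_self]
  have h8 : p + (dg C X - p) = dg C X := by abel
  have h9 : NonDeg C H h (p + (dg C X - p)) j := by rw [h8]; exact hX
  exact ((nonDeg_add hh hp h5 h6 h7 j).1 h9).1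

end dom

end Pool.Agent.H423.BH
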