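import Pool.Graph.R_pool_sql_team_seeded_3997aac3.Q187.HT.Conv

/-!
# The level of a pair (variety, codimension)

A pair `(X, j)` has level at most `N` if `j ≤ N` and `dim X + 1 - j ≤ N`. We prove the full formula
for products, for all pairs of level at most `N`, from the formula for the products of middle parts
for all pairs of level at most `N`.
-/

open CategoryTheory AlgebraicGeometry

universe u v w

namespace Pool.Agent.H423.BH

open Pool.Agent.Q187
open Pool.Agent.H914 Pool.Agent.H914.VarClass Pool.Agent.H914.VarClass.Obj Pool.Agent.W492.BB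
  Pool.Agent.W550.Corr Pool.Agent.TH133 Pool.Agent.Y148.BB Pool.Agent.Q187.AJ Pool.Agent.Q187.RK
  Pool.Agent.Q187.HT

set_option linter.unusedSectionVars false
set_option linter.unusedVariables false

variable {k : Type u} [Field k] {𝒱 : VarClass k}

variable {C : TheoryData.{u, v, 0} 𝒱 ℚ} [hC : IsChowProj C] {K : Type w} [Field K]
  {H : WeilTheoryData.{u, v, w} C K} [hH : IsWeilProj H] {X Y Z W B P M L : 𝒱.Obj}
  {A : Type*} [AddCommGroup A] {δ : ∀ X : 𝒱.Obj, C.A (X.prod X) → ℤ → A}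
  {fn : ∀ X : 𝒱.Obj, C.A (X.prod X) → ℤ → Prop}

/-- The full formula for `(X, q)` in the codimensions of level at most `N`. -/
def Lv (fn : ∀ X : 𝒱.Obj, C.A (X.prod X) → ℤ → Prop) {A : Type*} [AddCommGroup A]
    (δ : ∀ X : 𝒱.Obj, C.A (X.prod X) → ℤ → A) (N : ℤ) (X : 𝒱.Obj) (q : C.A (X.prod X)) : Prop :=
  ∀ j : ℤ, j ≤ N → (X.dim : ℤ) + 1 - j ≤ N → fn X q j ∧ δ X q j = 0

include hC hH

variable (hδ : IsDef H fn δ)
include hδ

lemma lv_of_pf {N : ℤ} (h : PF C H fn δ N) {p : C.A (P.prod P)} (hp : IsPrim C H P p) :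
    Lv fn δ N P p := by
  intro j hj hj'
  have key : ∀ (hb : Bot2 H p j) (hk : Kills H p (2 * j - 1)), fn P p j ∧ δ P p j = 0 :=
    fun hb hk => ⟨hδ.isFn.zero P p j (RK.prim_pr hp) hb, hδ.zero P p j (RK.prim_pr hp) hk hb⟩
  by_cases hne : 2 * j = P.dim + 1
  · exact (h P p hp j hj hj').2 hne
  · exact key (prim_bot2 hp ((h P p hp j hj hj').1 hne)
      ((h P p hp ((P.dim : ℤ) + 1 - j) (by omega) (by omega)).1 (by omega)))
      (prim_kills hp _ (by omega))

lemma lv_var {N : ℤ} {f : X ⟶ Y} {g : Y ⟶ X} (h1 : f ≫ g = 𝟙 X) (h2 : g ≫ f = 𝟙 Y)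
    (hd : X.dim = Y.dim) {p : C.A (Y.prod Y)} (hp : Pr p) (h : Lv fn δ N Y p) :
    Lv fn δ N X (C.pull (prodMap f f) p) := by
  intro j hj hj'
  rw [fn_var' hδ.isFn h1 h2 hd hp, δ_var' hδ h1 h2 hd hp]
  exact h j hj (by rw [← hd]; exact hj')

lemma lv_add {N : ℤ} {b : C.A (B.prod B)} (hb : IsMiddle C H B b) {q : C.A (X.prod X)} (hq : Pr q)
    (h1 : Lv fn δ N (X.prod B) (tens C q b)) (h2 : Lv fn δ N X q) :
    Lv fn δ N (X.prod B) (tens C q (dg C B)) := by
  obtain ⟨m, a, a', t, hm⟩ := exists_mid hb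
  intro j hj hj'
  have hdim : ((X.prod B).dim : ℤ) = X.dim + B.dim := by rw [dim_prod]; push_cast; ring
  have h4 : ∀ i, fn X q (j - t i) ∧ δ X q (j - t i) = 0 := by
    intro i
    have hti := hm.le i
    rw [hdim] at hj'
    exact h2 (j - t i) (by omega) (by omega)
  have h3 : fn (X.prod B) (tens C q (dg C B)) j :=
    (fn_split' hδ.isFn hm hq j).2 ⟨(h1 j hj hj').1, fun i => (h4 i).1⟩
  refine ⟨h3, ?_⟩
  rw [δ_split' hδ hm hq h3, (h1 j hj hj').2, Finset.sum_eq_zero fun i _ => (h4 i).2, add_zero]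

omit hC hH hδ in
/-- The full formula for `(X, q)` and its products with the products of middle parts. -/
def GV (C : TheoryData.{u, v, 0} 𝒱 ℚ) {K : Type w} [Field K] (H : WeilTheoryData.{u, v, w} C K)
    (fn : ∀ X : 𝒱.Obj, C.A (X.prod X) → ℤ → Prop) {A : Type*} [AddCommGroup A]
    (δ : ∀ X : 𝒱.Obj, C.A (X.prod X) → ℤ → A) (N : ℤ) (X : 𝒱.Obj) (q : C.A (X.prod X)) : Prop :=
  Lv fn δ N X q ∧ ∀ (P : 𝒱.Obj) (p : C.A (P.prod P)), IsPrim C H P p →
    Lv fn δ N (X.prod P) (tens C q p)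

lemma gl_var {N : ℤ} {f : X ⟶ Y} {g : Y ⟶ X} (h1 : f ≫ g = 𝟙 X) (h2 : g ≫ f = 𝟙 Y)
    (hd : X.dim = Y.dim) {p : C.A (Y.prod Y)} (hp : Pr p) (h : GV C H fn δ N Y p) :
    GV C H fn δ N X (C.pull (prodMap f f) p) := by
  refine ⟨lv_var hδ h1 h2 hd hp h.1, fun P r hr => ?_⟩
  have h4 := lv_var (f := prodMap f (𝟙 P)) (g := prodMap g (𝟙 P)) hδ
    (by rw [prodMap_comp, h1, Category.comp_id, prodMap_id])
    (by rw [prodMap_comp, h2, Category.comp_id, prodMap_id])
    (by rw [dim_prod, dim_prod, hd]) (pr_tens hp (RK.prim_pr hr)) (h.2 P r hr)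
  rw [pull_prodMap_tens, prodMap_id, C.pull_id] at h4
  exact h4

lemma gl_base {N : ℤ} (h : ∀ (P : 𝒱.Obj) (p : C.A (P.prod P)), IsPrim C H P p → Lv fn δ N P p)
    {b : C.A (B.prod B)} (hb : IsMiddle C H B b) : GV C H fn δ N B (dg C B) := by
  obtain ⟨m, a, a', t, hm⟩ := exists_mid hb
  refine ⟨fun j hj hj' => ?_, fun P p hp => ?_⟩
  · obtain ⟨h1, h2⟩ := h B b (IsPrim.base B b hb) j hj hj'
    have h3 := (fn_mid' hδ.isFn hm j).2 h1
    exact ⟨h3, by rw [δ_mid' hδ hm h3, h2]⟩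
  · have h1 : Lv fn δ N (P.prod B) (tens C p (dg C B)) :=
      lv_add hδ hb (RK.prim_pr hp)
        (h _ _ (IsPrim.prod P B p b hp (IsPrim.base B b hb))) (h P p hp)
    have h2 := lv_var (f := sw B P) (g := sw P B) hδ sw_sw sw_sw
      (by simp only [dim_prod]; omega) (pr_tens (RK.prim_pr hp) (pr_dg B)) h1
    rw [pull_sw_tens] at h2
    exact h2

lemma gl_step {N : ℤ} (hW : IsProd C H W) : ∀ (X : 𝒱.Obj) (q : C.A (X.prod X)), Pr q →
    GV C H fn δ N X q → GV C H fn δ N (X.prod W) (tens C q (dg C W)) := by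
  induction hW with
  | base B b hb =>
    intro X q hq hG
    obtain ⟨m, a, a', t, hm⟩ := exists_mid hb
    refine ⟨lv_add hδ hb hq (hG.2 B b (IsPrim.base B b hb)) hG.1, fun P p hp => ?_⟩
    have h1 : Lv fn δ N ((X.prod P).prod B) (tens C (tens C q p) b) := by
      have h2 := lv_var (f := aI X P B) (g := aJ X P B) hδ aI_aJ aJ_aI
        (by simp only [dim_prod]; omega) (pr_tens hq (pr_tens (RK.prim_pr hp) (mid_pr hm)))
        (hG.2 (P.prod B) (tens C p b) (IsPrim.prod P B p b hp (IsPrim.base B b hb)))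
      rw [pull_aI_tens] at h2
      exact h2
    have h3 := lv_add hδ hb (pr_tens hq (RK.prim_pr hp)) h1 (hG.2 P p hp)
    have h4 := lv_var (f := ex X B P) (g := ex X P B) hδ (ex_ex X B P) (ex_ex X P B)
      (by simp only [dim_prod]; omega) (pr_tens (pr_tens hq (RK.prim_pr hp)) (pr_dg B)) h3
    rw [pull_ex_tens] at h4
    exact h4
  | prod W W' _ _ ih ih' =>
    intro X q hq hG
    have h1 := ih' (X.prod W) _ (pr_tens hq (pr_dg W)) (ih X q hq hG)
    have h2 := gl_var (f := aJ X W W') (g := aI X W W') hδ aJ_aI aI_aJ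
      (by simp only [dim_prod]; omega) (pr_tens (pr_tens hq (pr_dg W)) (pr_dg W')) h1
    have h3 : C.pull (prodMap (aJ X W W') (aJ X W W')) (tens C (tens C q (dg C W)) (dg C W')) =
        tens C q (dg C (W.prod W')) := by
      rw [← pull_aI_tens q (dg C W) (dg C W'), ← C.pull_comp, prodMap_comp, aJ_aI, prodMap_id,
        C.pull_id, tens_dg]
    rw [h3] at h2
    exact h2

lemma gl_prod {N : ℤ} (h : ∀ (P : 𝒱.Obj) (p : C.A (P.prod P)), IsPrim C H P p → Lv fn δ N P p)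
    (hX : IsProd C H X) : GV C H fn δ N X (dg C X) := by
  induction hX with
  | base B b hb => exact gl_base hδ h hb
  | prod W W' hW hW' ih _ =>
    have h1 := gl_step hδ hW' W (dg C W) (pr_dg W) ih
    rw [tens_dg] at h1
    exact h1

/-- From the middle parts to the varieties, level by level. -/
theorem lv_of_prim {N : ℤ} (h : PF C H fn δ N) (hX : IsProd C H X) : Lv fn δ N X (dg C X) :=
  (gl_prod hδ (fun P p hp => lv_of_pf hδ h hp) hX).1

end Pool.Agent.H423.BH
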