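import Pool.Agent.H423.BH.Level
import Pool.Agent.H423.BH.Dom

/-!
# Beilinson's conjecture on products, level by level
-/

open CategoryTheory AlgebraicGeometry

universe u v w

namespace Pool.Agent.H423.BH

open Pool.Agent.Q187
open Pool.Agent.H914 Pool.Agent.H914.VarClass Pool.Agent.H914.VarClass.Obj Pool.Agent.W492.BB
  Pool.Agent.W550.Corr Pool.Agent.TH133 Pool.Agent.Y148.BB Pool.Agent.Q187.AJ Pool.Agent.Q187.RK
  Pool.Agent.Q187.HT

set_option linter.unusedSectionVars false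
set_option linter.unusedVariables false

variable {k : Type u} [Field k] {𝒱 : VarClass k}

variable {C : TheoryData.{u, v, 0} 𝒱 ℚ} [hC : IsChowProj C] {K : Type w} [Field K]
  {H : WeilTheoryData.{u, v, w} C K} [hH : IsWeilProj H] {X Y Z W B P M L : 𝒱.Obj}
  {e : ∀ X : 𝒱.Obj, C.A (X.prod X) → ℤ → ℤ}
  {l : ∀ X : 𝒱.Obj, C.A (X.prod X) → ℤ → ℝˣ ⧸ ratUnits}
  {h : ∀ X : 𝒱.Obj, C.A X →ₗ[ℚ] C.A X →ₗ[ℚ] ℝ}

include hC hH

/-- The defect of the rank formula as an invariant in the sense of `IsDef`. -/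
lemma isDef_D (he : IsOrder C H e) : IsDef H (fun X p j => Fn H X p j) (D H e) where
  isFn :=
    { add := fun X p q j hp hq h1 h2 => fn_add hp hq h1 h2 j
      iso := fun X Y p q c j f g hp hq hf hg h1 h2 => fn_iso hf hg h1 h2 j
      zero := fun X p j hp hb => fn_of_bot hb.1 }
  add := fun X p q j hp hq h1 h2 hfp hfq => (isDefect_D he).add X p q j hp hq h1 h2 hfp hfq
  iso := (isDefect_D he).iso
  zero := fun X p j hp hk hb => (isDefect_D he).zero X p j hp hk hb.1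

variable (he : IsOrder C H e) (hl : IsLeading C H l) (hh : IsHeight C H h)
include he hl hh

/-- The two forms of the statement on the products of middle parts. -/
def PrimLevel (C : TheoryData.{u, v, 0} 𝒱 ℚ) {K : Type w} [Field K] (H : WeilTheoryData.{u, v, w} C K)
    (e : ∀ X : 𝒱.Obj, C.A (X.prod X) → ℤ → ℤ)
    (l : ∀ X : 𝒱.Obj, C.A (X.prod X) → ℤ → ℝˣ ⧸ ratUnits)
    (h : ∀ X : 𝒱.Obj, C.A X →ₗ[ℚ] C.A X →ₗ[ℚ] ℝ) (N : ℕ) : Prop :=
  ∀ (P : 𝒱.Obj) (p : C.A (P.prod P)) (j : ℕ), IsPrim C H P p → j ≤ N → P.dim + 1 ≤ N + j →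
    (P.dim + 1 ≠ 2 * j → homTriv C H p j = ⊥) ∧
      (P.dim + 1 = 2 * j → Beilinson C H e l h p j)

lemma primLevel_of_pf {N : ℕ} (h1 : PrimForm H (D H e) N)
    (h2 : PF C H (fun X p j => NonDeg C H h p j) (dl C H l h) N) : PrimLevel C H e l h N := by
  intro P p j hp hj hj'
  refine ⟨fun hne => (h1 P p hp j (by omega) (by omega)).1 (by omega), fun heq => ?_⟩
  exact HT.beilinson_iff.2 ⟨rankFormula_iff.2 ((h1 P p hp j (by omega) (by omega)).2 (by omega)),
    (h2 P p hp j (by omega) (by omega)).2 (by omega)⟩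

lemma pf_of_primLevel {N : ℕ} (hN : PrimLevel C H e l h N) :
    PrimForm H (D H e) N ∧
      PF C H (fun X p j => NonDeg C H h p j) (dl C H l h) N := by
  have key : ∀ (P : 𝒱.Obj) (p : C.A (P.prod P)), IsPrim C H P p → ∀ j : ℤ, j ≤ N →
      (P.dim : ℤ) + 1 - j ≤ N → (2 * j ≠ P.dim + 1 → homTriv C H p j = ⊥) ∧
        (2 * j = P.dim + 1 → Beilinson C H e l h p j) := by
    intro P p hp j hj hj'
    rcases le_or_gt j 0 with h0 | h0
    · exact ⟨fun _ => homTriv_out p (Or.inl h0), fun heq => by omega⟩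
    · obtain ⟨j, rfl⟩ : ∃ j' : ℕ, (j' : ℤ) = j := ⟨j.toNat, Int.toNat_of_nonneg h0.le⟩
      obtain ⟨h1, h2⟩ := hN P p j hp (by omega) (by omega)
      exact ⟨fun hne => h1 (by omega), fun heq => h2 (by omega)⟩
  refine ⟨fun P p hp j hj hj' => ⟨(key P p hp j hj hj').1, fun heq => ?_⟩,
    fun P p hp j hj hj' => ⟨(key P p hp j hj hj').1, fun heq => ?_⟩⟩
  · exact rankFormula_iff.1 (HT.beilinson_iff.1 ((key P p hp j hj hj').2 heq)).1
  · exact (HT.beilinson_iff.1 ((key P p hp j hj hj').2 heq)).2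

/-- The full statement of level `N`, from the statement for the products of middle parts. -/
lemma level_of_pf {N : ℤ} (h1 : PrimForm H (D H e) N)
    (h2 : PF C H (fun X p j => NonDeg C H h p j) (dl C H l h) N) (hX : IsProd C H X) {j : ℤ}
    (hj : j ≤ N) (hj' : (X.dim : ℤ) + 1 - j ≤ N) : Beilinson C H e l h (dg C X) j :=
  HT.beilinson_iff.2 ⟨rankFormula_iff.2 (lv_of_prim (isDef_D he) h1 hX j hj hj'),
    lv_of_prim (isDef_dl hl hh) h2 hX j hj hj'⟩

omit he hl hh hC hH in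
lemma mid_conv {N : ℕ} (hm : ∀ (X : 𝒱.Obj) (i : ℕ), IsProd C H X → X.dim + 1 = 2 * i → i ≤ N →
      Beilinson C H e l h (AJS.diag C X) i) :
    ∀ X, IsProd C H X → ∀ i : ℤ, i ≤ N → (X.dim : ℤ) = 2 * i - 1 →
      Beilinson C H e l h (dg C X) i := by
  intro X hX i hi hd
  have h1 : ((i.toNat : ℕ) : ℤ) = i := Int.toNat_of_nonneg (by omega)
  have h2 := hm X i.toNat hX (by omega) (by omega)
  rwa [h1] at h2

/-- The level-by-level equivalences. -/
theorem level_tfae (hL : ∃ (L : 𝒱.Obj) (o : C.A L), L.dim = 1 ∧ AJS.DegreeOne C o ∧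
    AJS.odd C o = 0) (N : ℕ) :
    List.TFAE [
      ∀ (X : 𝒱.Obj) (j : ℕ), IsProd C H X → j ≤ N → X.dim + 1 ≤ N + j →
        Beilinson C H e l h (AJS.diag C X) j,
      ∀ (X : 𝒱.Obj) (i : ℕ), IsProd C H X → X.dim + 1 = 2 * i → i ≤ N →
        Beilinson C H e l h (AJS.diag C X) i,
      PrimLevel C H e l h N] := by
  obtain ⟨L, o, h1, h2, h3⟩ := hL
  have hline := line_conv h1 h2 h3
  tfae_have 1 → 2 := fun hm X i hX hd hi => hm X i hX hi (by omega)
  tfae_have 2 → 3 := fun hm => by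
    obtain ⟨h4, h5⟩ := pf_of_middle he hl hh hline (mid_conv hm)
    exact primLevel_of_pf he hl hh h4 h5
  tfae_have 3 → 1 := fun hm X j hX hj hj' => by
    obtain ⟨h4, h5⟩ := pf_of_primLevel he hl hh hm
    exact level_of_pf he hl hh h4 h5 hX (by omega) (by omega)
  tfae_finish

/-- Correspondences act through cohomology. -/
def ThroughCohomology (C : TheoryData.{u, v, 0} 𝒱 ℚ) {K : Type w} [Field K]
    (H : WeilTheoryData.{u, v, w} C K) : Prop :=
  ∀ X Y : 𝒱.Obj, AJS.Dominated C (IsProd C H) X → AJS.Dominated C (IsProd C H) Y →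
    ∀ (m l : ℕ) (Γ : C.A (X.prod Y)), AJS.Maps C m l Γ → Kills H Γ (2 * m - 1) →
      ∀ z, C.Deg m z → AJS.Triv C H z → C.act Γ z = 0

/-- The criterion in terms of the action of correspondences and the centre. -/
theorem criterion (hL : ∃ (L : 𝒱.Obj) (o : C.A L), L.dim = 1 ∧ AJS.DegreeOne C o ∧
    AJS.odd C o = 0) :
    (∀ (X : 𝒱.Obj) (j : ℕ), IsProd C H X → Beilinson C H e l h (AJS.diag C X) j) ↔
      (ThroughCohomology C H ∧
        ∀ (P : 𝒱.Obj) (p : C.A (P.prod P)) (m : ℕ), IsPrim C H P p → P.dim + 1 = 2 * m →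
          Beilinson C H e l h p m) := by
  constructor
  · intro hall
    have hr : ∀ (X : 𝒱.Obj) (m : ℕ), IsProd C H X → RankFormula C H e (AJS.diag C X) m :=
      fun X m hX => (HT.beilinson_iff.1 (hall X m hX)).1
    refine ⟨((act_through_cohomology he hL).1.1 hr).1, fun P p m hp hd => ?_⟩
    have h1 := ((level_tfae he hl hh hL m).out 0 2 rfl rfl).1 fun X j hX _ _ => hall X j hX
    exact (h1 P p m hp le_rfl (by omega)).2 hd
  · rintro ⟨h1, h2⟩ X j hX
    refine ((level_tfae he hl hh hL (X.dim + 1 + j)).out 0 2 rfl rfl).2 ?_ X j hX (by omega)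
      (by omega)
    intro P p m hp hm hm'
    refine ⟨fun hne => ?_, fun heq => h2 P p m hp heq⟩
    have hP : AJS.Dominated C (IsProd C H) P := by
      refine ⟨P, ?_, dg C P, dg C P, ?_, ?_, fun x => by rw [act_dg, act_dg]⟩
      · clear h1 h2 hm hm' hne
        induction hp with
        | base B b hb => exact IsProd.base B b hb
        | prod P P' p p' _ _ ih ih' => exact IsProd.prod P P' ih ih'
      · exact gr_congr (by push_cast; ring) (dg_mem C P)
      · exact gr_congr (by push_cast; ring) (dg_mem C P)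
    have hpr := RK.prim_pr hp
    have hkl := prim_kills hp (2 * (m : ℤ) - 1) (by omega)
    rw [eq_bot_iff]
    rintro z ⟨hz, h0, hpz⟩
    rw [Submodule.mem_bot, ← hpz]
    exact h1 P P hP hP m m p (gr_congr (by ring) hpr.1) hkl z hz h0

/-- Non-degeneracy on all submotives of all dominated varieties. -/
theorem nonDeg_dominated {N : ℕ} (hL : ∃ (L : 𝒱.Obj) (o : C.A L), L.dim = 1 ∧
    AJS.DegreeOne C o ∧ AJS.odd C o = 0)
    (hm : ∀ (X : 𝒱.Obj) (i : ℕ), IsProd C H X → X.dim + 1 = 2 * i → i ≤ N →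
      Beilinson C H e l h (AJS.diag C X) i) {X : 𝒱.Obj} {p : C.A (X.prod X)} {j : ℕ}
    (hj : j ≤ N) (hj' : X.dim + 1 ≤ N + j)
    (hX : AJS.Dominated C (fun Z => IsProd C H Z ∧ Z.dim + 1 ≤ N + j ∧ Z.dim + j ≤ N + X.dim) X)
    (hp : IsProjector C p) : NonDeg C H h p j := by
  obtain ⟨Z, ⟨hZ, hd1, hd2⟩, f, g, hf, hg, hfg⟩ := hX
  obtain ⟨L, o, h1, h2, h3⟩ := hL
  have hline := line_conv h1 h2 h3
  obtain ⟨h4, h5⟩ := pf_of_middle he hl hh hline (mid_conv hm)
  have hf0 : f ∈ C.gr (X.prod Z) (X.dim + 0) := gr_congr (by push_cast; ring) hf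
  have hZ1 : NonDeg C H h (dg C Z) j :=
    (HT.beilinson_iff.1 (level_of_pf he hl hh h4 h5 hZ (by omega) (by omega))).2.1
  have hZ2 : NonDeg C H h (dg C Z) (X.dim + 1 - j) :=
    (HT.beilinson_iff.1 (level_of_pf he hl hh h4 h5 hZ (by omega) (by omega))).2.1
  exact nonDeg_projector hh (nonDeg_dom hh hf0 hfg hZ1 hZ2) hp

end Pool.Agent.H423.BH
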